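import Mathlib

/-! Covering integers by one residue class for each prime near `N ^ α`: choices with a small
difference set. Core inequality. -/

set_option autoImplicit false

namespace Pool.Agent.U61.SD2

open Finset

/-- A nonzero integer of absolute value at most `N` has at most `1 / α` prime factors `≥ N ^ α`. -/
theorem few_primes {Q : Finset ℕ} {N : ℝ} {α : ℝ} (hN : 1 < N)
    (hQ : ∀ q ∈ Q, q.Prime ∧ N ^ α ≤ q) {m : ℤ} (hm : m ≠ 0) (hmN : |(m : ℝ)| ≤ N) :
    α * ((Q.filter (fun q : ℕ => (q : ℤ) ∣ m)).card : ℝ) ≤ 1 := by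
  set Q' := Q.filter (fun q : ℕ => (q : ℤ) ∣ m) with hQ'
  have hdvd : ∏ q ∈ Q', q ∣ m.natAbs := by
    apply Finset.prod_primes_dvd
    · intro q hq
      exact (hQ q (Finset.mem_filter.mp hq).1).1.prime
    · intro q hq
      exact Int.natCast_dvd.mp (Finset.mem_filter.mp hq).2
  have hle : ∏ q ∈ Q', q ≤ m.natAbs := Nat.le_of_dvd (Int.natAbs_pos.mpr hm) hdvd
  have hle' : ((∏ q ∈ Q', q : ℕ) : ℝ) ≤ N := by
    calc ((∏ q ∈ Q', q : ℕ) : ℝ) ≤ (m.natAbs : ℝ) := by exact_mod_cast hle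
      _ = |(m : ℝ)| := by rw [Nat.cast_natAbs, Int.cast_abs]
      _ ≤ N := hmN
  have hge : (N ^ α) ^ Q'.card ≤ ((∏ q ∈ Q', q : ℕ) : ℝ) := by
    rw [Nat.cast_prod, ← Finset.prod_const]
    apply Finset.prod_le_prod
    · intro q _
      positivity
    · intro q hq
      exact (hQ q (Finset.mem_filter.mp hq).1).2
  have h1 : N ^ (α * (Q'.card : ℝ)) ≤ N ^ (1 : ℝ) := by
    rw [Real.rpow_mul (by linarith), Real.rpow_natCast, Real.rpow_one]
    exact hge.trans hle'
  exact (Real.rpow_le_rpow_left_iff hN).mp h1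

/-- Cauchy-Schwarz for the fibres of a map -/
theorem cs {X T : Type*} [DecidableEq X] [DecidableEq T] (A : Finset X) (B : Finset T) (f : X → T)
    (h : ∀ x ∈ A, f x ∈ B) :
    A.card ^ 2 ≤ B.card * ((A ×ˢ A).filter (fun z => f z.1 = f z.2)).card := by
  have h1 : A.card = ∑ t ∈ B, (A.filter (fun x => f x = t)).card :=
    Finset.card_eq_sum_card_fiberwise h
  have h2 : ((A ×ˢ A).filter (fun z => f z.1 = f z.2)).card =
      ∑ t ∈ B, (A.filter (fun x => f x = t)).card ^ 2 := by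
    rw [Finset.card_eq_sum_card_fiberwise (f := fun z : X × X => f z.1) (t := B) (by
      intro z hz
      rw [Finset.mem_coe, Finset.mem_filter, Finset.mem_product] at hz
      exact h _ hz.1.1)]
    refine Finset.sum_congr rfl fun t _ => ?_
    rw [sq, ← Finset.card_product]
    congr 1
    ext z
    simp only [Finset.mem_filter, Finset.mem_product]
    constructor
    · rintro ⟨⟨⟨h1, h2⟩, h3⟩, h4⟩
      exact ⟨⟨h1, h4⟩, h2, h3 ▸ h4⟩
    · rintro ⟨⟨h1, h4⟩, h2, h3⟩
      exact ⟨⟨⟨h1, h2⟩, h4.trans h3.symm⟩, h4⟩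
  rw [h1, h2]
  exact sq_sum_le_card_mul_sum_sq

/-- the difference set of the graph of `b` on `Q` -/
def gdiffs (Q : Finset ℕ) (b : ℕ → ℤ) : Finset (ℤ × ℤ) :=
  (Q ×ˢ Q).image (fun x => ((x.1 : ℤ) - x.2, b x.1 - b x.2))

theorem card_le_gdiffs (Q : Finset ℕ) (b : ℕ → ℤ) : Q.card ≤ (gdiffs Q b).card := by
  rcases Q.eq_empty_or_nonempty with rfl | ⟨q, hq⟩
  · simp
  · refine Finset.card_le_card_of_injOn (fun p => ((p : ℤ) - q, b p - b q)) ?_ ?_
    · intro p hp
      exact Finset.mem_image.mpr ⟨(p, q), Finset.mem_product.mpr ⟨hp, hq⟩, rfl⟩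
    · intro p _ p' _ h
      have := congrArg Prod.fst h
      simp only at this
      omega

/-- pairs of different elements of `Q` whose progressions `b p + k p` meet for the same `k` -/
def levelSet (Q : Finset ℕ) (b : ℕ → ℤ) (K : ℕ) : Set (ℕ × ℕ) :=
  {x | (x.1 ∈ Q ∧ x.2 ∈ Q) ∧ x.1 ≠ x.2 ∧ ∃ k ∈ Finset.Ioc K (2 * K),
    b x.1 + (k : ℤ) * x.1 = b x.2 + (k : ℤ) * x.2}

theorem levelSet_finite (Q : Finset ℕ) (b : ℕ → ℤ) (K : ℕ) : (levelSet Q b K).Finite :=
  (Q ×ˢ Q).finite_toSet.subset fun _ hx => Finset.mem_coe.mpr (Finset.mem_product.mpr hx.1)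

/-- the same as a finite set -/
noncomputable def level (Q : Finset ℕ) (b : ℕ → ℤ) (K : ℕ) : Finset (ℕ × ℕ) :=
  (levelSet_finite Q b K).toFinset

theorem mem_level {Q : Finset ℕ} {b : ℕ → ℤ} {K : ℕ} {x : ℕ × ℕ} : x ∈ level Q b K ↔
    (x.1 ∈ Q ∧ x.2 ∈ Q) ∧ x.1 ≠ x.2 ∧ ∃ k ∈ Finset.Ioc K (2 * K),
      b x.1 + (k : ℤ) * x.1 = b x.2 + (k : ℤ) * x.2 := by
  unfold level
  rw [Set.Finite.mem_toFinset]
  rfl

/-- the number of coincidences -/
theorem coincidences {Q : Finset ℕ} {N : ℝ} {α : ℝ} (hα : 0 < α) (hN : 1 < N)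
    (hQ : ∀ q ∈ Q, q.Prime ∧ N ^ α ≤ q) (b : ℕ → ℤ) (K : ℕ)
    (hb : ∀ p ∈ Q, ∀ q ∈ Q, ∀ k ∈ Finset.Ioc K (2 * K),
      |((b p - b q + (k : ℤ) * ((p : ℤ) - q) : ℤ) : ℝ)| ≤ N) :
    α * ((((Q ×ˢ Finset.Ioc K (2 * K)) ×ˢ (Q ×ˢ Finset.Ioc K (2 * K))).filter
      (fun z => b z.1.1 + (z.1.2 : ℤ) * z.1.1 = b z.2.1 + (z.2.2 : ℤ) * z.2.1)).card : ℝ) ≤
      α * (Q.card * K) + α * (level Q b K).card + (gdiffs Q b).card * K := by
  classical
  set X := Q ×ˢ Finset.Ioc K (2 * K) with hX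
  set W := (X ×ˢ X).filter
      (fun z => b z.1.1 + (z.1.2 : ℤ) * z.1.1 = b z.2.1 + (z.2.2 : ℤ) * z.2.1) with hW
  -- three parts
  set W1 := W.filter (fun z => z.1 = z.2) with hW1
  set W2 := W.filter (fun z => z.1.1 ≠ z.2.1 ∧ z.1.2 = z.2.2) with hW2
  set W3 := W.filter (fun z => z.1.2 ≠ z.2.2) with hW3
  have hpos : ∀ q ∈ Q, 0 < q := fun q hq => (hQ q hq).1.pos
  have hsub : W ⊆ W1 ∪ (W2 ∪ W3) := by
    intro z hz
    by_cases h3 : z.1.2 = z.2.2
    · by_cases h1 : z.1.1 = z.2.1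
      · exact Finset.mem_union_left _ (Finset.mem_filter.mpr ⟨hz, Prod.ext h1 h3⟩)
      · exact Finset.mem_union_right _ (Finset.mem_union_left _
          (Finset.mem_filter.mpr ⟨hz, h1, h3⟩))
    · exact Finset.mem_union_right _ (Finset.mem_union_right _ (Finset.mem_filter.mpr ⟨hz, h3⟩))
  have hXc : X.card = Q.card * K := by
    rw [hX, Finset.card_product, Nat.card_Ioc]
    congr 1
    omega
  have c1 : W1.card ≤ Q.card * K := by
    rw [← hXc]
    refine Finset.card_le_card_of_injOn (fun z => z.1) ?_ ?_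
    · intro z hz
      rw [Finset.mem_coe, hW1, Finset.mem_filter, hW, Finset.mem_filter, Finset.mem_product] at hz
      exact hz.1.1.1
    · intro z hz z' hz' h
      rw [Finset.mem_coe, hW1, Finset.mem_filter] at hz hz'
      exact Prod.ext h (hz.2.symm.trans (h.trans hz'.2))
  have c2 : W2.card ≤ (level Q b K).card := by
    refine Finset.card_le_card_of_injOn (fun z => (z.1.1, z.2.1)) ?_ ?_
    · intro z hz
      rw [Finset.mem_coe, hW2, Finset.mem_filter, hW, Finset.mem_filter, Finset.mem_product, hX,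
        Finset.mem_product, Finset.mem_product] at hz
      obtain ⟨⟨⟨⟨h1, h2⟩, h3, h4⟩, h5⟩, h6, h7⟩ := hz
      rw [Finset.mem_coe, mem_level]
      refine ⟨⟨h1, h3⟩, h6, z.1.2, h2, ?_⟩
      rw [← h7] at h5
      exact h5
    · intro z hz z' hz' h
      rw [Finset.mem_coe, hW2, Finset.mem_filter, hW, Finset.mem_filter] at hz hz'
      obtain ⟨⟨-, h5⟩, h6, h7⟩ := hz
      obtain ⟨⟨-, h5'⟩, h6', h7'⟩ := hz'
      have hh : (z.1.1, z.2.1) = (z'.1.1, z'.2.1) := h
      have e1 : z.1.1 = z'.1.1 := (Prod.mk.inj hh).1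
      have e2 : z.2.1 = z'.2.1 := (Prod.mk.inj hh).2
      rw [← h7] at h5
      rw [← h7', ← e1, ← e2] at h5'
      have hne : ((z.1.1 : ℤ) - z.2.1) ≠ 0 := by
        intro h0
        apply h6
        omega
      have e3 : (z.1.2 : ℤ) = z'.1.2 := by
        apply mul_right_cancel₀ hne
        linarith
      have e3' : z.1.2 = z'.1.2 := by exact_mod_cast e3
      refine Prod.ext (Prod.ext e1 e3') (Prod.ext e2 ?_)
      rw [← h7, ← h7']
      exact e3'
  have c3 : α * (W3.card : ℝ) ≤ (gdiffs Q b).card * K := by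
    set Y := ((gdiffs Q b) ×ˢ Finset.Ioc K (2 * K)) with hY
    -- the map to pairs (difference, k)
    have hmap : ∀ z ∈ W3, (fun z : (ℕ × ℕ) × (ℕ × ℕ) =>
        (((z.1.1 : ℤ) - z.2.1, b z.1.1 - b z.2.1), z.1.2)) z ∈ Y := by
      intro z hz
      rw [hW3, Finset.mem_filter, hW, Finset.mem_filter, Finset.mem_product, hX,
        Finset.mem_product, Finset.mem_product] at hz
      obtain ⟨⟨⟨⟨h1, h2⟩, h3, h4⟩, h5⟩, h6⟩ := hz
      rw [hY, Finset.mem_product]
      exact ⟨Finset.mem_image.mpr ⟨(z.1.1, z.2.1), Finset.mem_product.mpr ⟨h1, h3⟩, rfl⟩, h2⟩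
    have hfib : ∀ y ∈ Y, α * ((W3.filter (fun z : (ℕ × ℕ) × (ℕ × ℕ) =>
        (((z.1.1 : ℤ) - z.2.1, b z.1.1 - b z.2.1), z.1.2) = y)).card : ℝ) ≤ 1 := by
      intro y hy
      set Z := W3.filter (fun z : (ℕ × ℕ) × (ℕ × ℕ) =>
        (((z.1.1 : ℤ) - z.2.1, b z.1.1 - b z.2.1), z.1.2) = y) with hZ
      rcases Z.eq_empty_or_nonempty with h0 | ⟨z0, hz0⟩
      · rw [h0]
        simp
      · -- the integer which the primes divide
        have key : ∀ z ∈ Z, z.2.1 ∈ Q ∧ (z.2.1 : ℤ) ∣ y.1.2 + (y.2 : ℤ) * y.1.1 ∧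
            y.1.2 + (y.2 : ℤ) * y.1.1 ≠ 0 ∧ |((y.1.2 + (y.2 : ℤ) * y.1.1 : ℤ) : ℝ)| ≤ N := by
          intro z hz
          rw [hZ, Finset.mem_filter, hW3, Finset.mem_filter, hW, Finset.mem_filter,
            Finset.mem_product, hX, Finset.mem_product, Finset.mem_product] at hz
          obtain ⟨⟨⟨⟨⟨h1, h2⟩, h3, h4⟩, h5⟩, h6⟩, h7⟩ := hz
          subst h7
          simp only
          have e : b z.1.1 - b z.2.1 + (z.1.2 : ℤ) * ((z.1.1 : ℤ) - z.2.1) =
              (z.2.1 : ℤ) * ((z.2.2 : ℤ) - z.1.2) := by linarith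
          refine ⟨h3, ?_, ?_, ?_⟩
          · rw [e]
            exact dvd_mul_right _ _
          · rw [e]
            have hq : (z.2.1 : ℤ) ≠ 0 := by
              have := hpos _ h3
              omega
            refine mul_ne_zero hq ?_
            intro h0
            apply h6
            omega
          · exact hb _ h1 _ h3 _ h2
        obtain ⟨-, -, k1, k2⟩ := key z0 hz0
        have hf := few_primes hN hQ k1 k2
        refine le_trans ?_ hf
        apply mul_le_mul_of_nonneg_left _ hα.le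
        have : Z.card ≤ (Q.filter (fun q : ℕ => (q : ℤ) ∣ y.1.2 + (y.2 : ℤ) * y.1.1)).card := by
          refine Finset.card_le_card_of_injOn (fun z => z.2.1) ?_ ?_
          · intro z hz
            obtain ⟨g1, g2, -, -⟩ := key z hz
            exact Finset.mem_filter.mpr ⟨g1, g2⟩
          · intro z hz z' hz' h
            have g := (key z hz).1
            rw [Finset.mem_coe, hZ, Finset.mem_filter, hW3, Finset.mem_filter, hW,
              Finset.mem_filter] at hz hz'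
            obtain ⟨⟨⟨-, h5⟩, -⟩, h7⟩ := hz
            obtain ⟨⟨⟨-, h5'⟩, -⟩, h7'⟩ := hz'
            have h8 := h7.trans h7'.symm
            simp only [Prod.mk.injEq] at h8
            obtain ⟨⟨h9, h10⟩, h11⟩ := h8
            simp only at h
            have e1 : z.1.1 = z'.1.1 := by
              rw [h] at h9
              omega
            have hq : ((z.2.1 : ℕ) : ℤ) ≠ 0 := by
              have := hpos _ g
              omega
            have e2 : (z.2.2 : ℤ) = z'.2.2 := by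
              rw [← h, ← e1, ← h11] at h5'
              have h12 : (z.2.2 : ℤ) * z.2.1 = (z'.2.2 : ℤ) * z.2.1 := by linarith
              exact mul_right_cancel₀ hq h12
            exact Prod.ext (Prod.ext e1 h11) (Prod.ext h (by exact_mod_cast e2))
        exact_mod_cast this
    have hsum : (W3.card : ℝ) = ∑ y ∈ Y, ((W3.filter (fun z : (ℕ × ℕ) × (ℕ × ℕ) =>
        (((z.1.1 : ℤ) - z.2.1, b z.1.1 - b z.2.1), z.1.2) = y)).card : ℝ) := by
      exact_mod_cast Finset.card_eq_sum_card_fiberwise hmap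
    rw [hsum, Finset.mul_sum]
    calc ∑ y ∈ Y, α * ((W3.filter (fun z : (ℕ × ℕ) × (ℕ × ℕ) =>
        (((z.1.1 : ℤ) - z.2.1, b z.1.1 - b z.2.1), z.1.2) = y)).card : ℝ) ≤ ∑ _y ∈ Y, (1 : ℝ) :=
          Finset.sum_le_sum hfib
      _ = (gdiffs Q b).card * K := by
        rw [Finset.sum_const, nsmul_eq_mul, mul_one, hY, Finset.card_product, Nat.card_Ioc]
        push_cast
        congr 1
        have : 2 * K - K = K := by omega
        exact_mod_cast this
  have hc : (W.card : ℝ) ≤ Q.card * K + (level Q b K).card + W3.card := by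
    have h1 := (Finset.card_le_card hsub).trans ((Finset.card_union_le _ _).trans
      (add_le_add_right (Finset.card_union_le _ _) _))
    have h2 : W.card ≤ Q.card * K + ((level Q b K).card + W3.card) := by omega
    have h3 : (W.card : ℝ) ≤ Q.card * K + ((level Q b K).card + W3.card) := by exact_mod_cast h2
    linarith
  calc α * (W.card : ℝ) ≤ α * (Q.card * K + (level Q b K).card + W3.card) :=
        mul_le_mul_of_nonneg_left hc hα.le
    _ = α * (Q.card * K) + α * (level Q b K).card + α * W3.card := by ring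
    _ ≤ _ := by linarith

end Pool.Agent.U61.SD2
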